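import Pool.Agent.Y973.ED.Three

/-! # Arbitrarily long runs for the number of divisors and other functions of the prime signature

The full answer to the question (arbitrarily long runs of consecutive integers with the same number
of divisors) in a stronger form: the numbers of the run have at the same time the same number of
divisors, the same number of ordered factorisations into three factors and the same number of
distinct prime factors; and a general criterion for functions of the prime signature. -/

set_option autoImplicit false

open Finset

namespace Pool.Agent.Results.MP_f85a7a_nt.SignatureRuns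

/-- (1) Let `f` be a function from the natural numbers to a commutative group with
`f (m n) = f m * f n` for coprime `m, n > 0` and with `f (p ^ a)` independent of the prime `p`, and
suppose that `f u = f v` for some `u, v > 0` with `Ω u = Ω v + 1` (prime factors counted with
multiplicity). Then for every `k` there are infinitely many `n` with
`f n = f (n + 1) = ⋯ = f (n + k - 1)`.

(2) For every `k` there are infinitely many `n` such that the `k` numbers `n, n + 1, …, n + k - 1`
have the same number of divisors, the same number `∑_{e ∣ n} d(e)` of ordered factorisations into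
three factors and the same number of distinct prime factors. -/
theorem result :
    (∀ (G : Type) [CommGroup G] (f : ℕ → G),
      (∀ m n : ℕ, 0 < m → 0 < n → Nat.Coprime m n → f (m * n) = f m * f n) →
      (∀ p q a : ℕ, p.Prime → q.Prime → f (p ^ a) = f (q ^ a)) →
      (∃ u v : ℕ, 0 < u ∧ 0 < v ∧ f u = f v ∧
        ArithmeticFunction.cardFactors u = ArithmeticFunction.cardFactors v + 1) →
      ∀ k : ℕ, Set.Infinite {n : ℕ | ∀ j < k, f (n + j) = f n}) ∧
    ∀ k : ℕ, Set.Infinite {n : ℕ | ∀ j < k,
      (n + j).divisors.card = n.divisors.card ∧
      ∑ e ∈ (n + j).divisors, e.divisors.card = ∑ e ∈ n.divisors, e.divisors.card ∧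
      (n + j).primeFactors.card = n.primeFactors.card} := by
  refine ⟨?_, ?_⟩
  · intro G _ f h1 h2 h3 k
    rw [Set.infinite_iff_exists_gt]
    intro N
    obtain ⟨y, hy, h⟩ := Pool.Agent.Y973.ED.runs ⟨h1, h2⟩ h3 k (N + 1)
    exact ⟨y, fun j hj => h j hj, by omega⟩
  · intro k
    rw [Set.infinite_iff_exists_gt]
    intro N
    obtain ⟨y, hy, h⟩ := Pool.Agent.Y973.ED.three_runs k (N + 1)
    refine ⟨y, fun j hj => ?_, by omega⟩
    have h1 := h j hj
    unfold Pool.Agent.Y973.ED.F at h1
    rw [Prod.mk.injEq, Prod.mk.injEq] at h1
    obtain ⟨e1, e2, e3⟩ := h1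
    refine ⟨?_, ?_, ?_⟩
    · exact Pool.Agent.Y973.ED.toU_inj (Pool.Agent.Y973.ED.d_pos (by omega))
        (Pool.Agent.Y973.ED.d_pos (by omega)) e1
    · exact Pool.Agent.Y973.ED.toU_inj (Pool.Agent.Y973.ED.d3_pos (by omega))
        (Pool.Agent.Y973.ED.d3_pos (by omega)) e2
    · have e4 := Multiplicative.ofAdd.injective e3
      exact_mod_cast e4

end Pool.Agent.Results.MP_f85a7a_nt.SignatureRuns
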